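import Pool.Agent.N728.QL.Def

/-! # Project QL, part PS (helper691): primes in short multiplicative intervals and classes -/

set_option autoImplicit false

namespace Pool.Agent.N691.QL

open Finset MeasureTheory Pool.Agent.N728.QL

noncomputable section

/-- the weight of the primes in the class -/
def aw (q β n : ℕ) : ℝ := if n.Prime ∧ n ≡ β [MOD q] then Real.log n else 0

/-- the error term -/
def Er (q β n : ℕ) : ℝ :=
  ∑ p ∈ (Icc 1 n).filter (fun p => p.Prime ∧ p ≡ β [MOD q]), Real.log p - (n : ℝ) / Nat.totient q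

theorem Er_succ (q β n : ℕ) : Er q β (n + 1) = Er q β n + aw q β (n + 1) - 1 / Nat.totient q := by
  unfold Er aw
  rw [Finset.sum_filter, Finset.sum_filter, Finset.sum_Icc_succ_top (by omega)]
  push_cast
  ring

/-- the weight function -/
def Wt (Ψ : ℝ → ℝ) (n : ℕ) : ℝ := Ψ (Real.log n) / n

theorem ident (q β N1 : ℕ) (Ψ : ℝ → ℝ) (N : ℕ) (hN : N1 ≤ N)
    (hint : ∀ n, N1 ≤ n → n < N → IntervalIntegrable Ψ volume (Real.log n) (Real.log (n + 1 : ℕ))) :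
    IntervalIntegrable Ψ volume (Real.log N1) (Real.log N) ∧
    (∑ p ∈ (Ioc N1 N).filter (fun p => p.Prime ∧ p ≡ β [MOD q]), Real.log p / p * Ψ (Real.log p)) -
      (1 / (Nat.totient q : ℝ)) * ∫ s in (Real.log N1)..(Real.log N), Ψ s =
    Er q β N * Wt Ψ N - Er q β N1 * Wt Ψ N1 -
      ∑ n ∈ Ico N1 N, Er q β n * (Wt Ψ (n + 1) - Wt Ψ n) +
      (1 / (Nat.totient q : ℝ)) *
        ∑ n ∈ Ico N1 N, (Wt Ψ (n + 1) - ∫ s in (Real.log n)..(Real.log (n + 1 : ℕ)), Ψ s) := by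
  induction N, hN using Nat.le_induction with
  | base => simp
  | succ N hN ih =>
    obtain ⟨ih1, ih2⟩ := ih fun n h1 h2 => hint n h1 (by omega)
    have h1 := hint N hN (by omega)
    refine ⟨ih1.trans h1, ?_⟩
    rw [Finset.sum_filter] at ih2 ⊢
    rw [← intervalIntegral.integral_add_adjacent_intervals ih1 h1,
      Finset.sum_Ioc_succ_top (by omega), Finset.sum_Ico_succ_top (by omega),
      Finset.sum_Ico_succ_top (by omega), Er_succ]
    have h2 : (if (N + 1).Prime ∧ N + 1 ≡ β [MOD q] then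
        Real.log ((N + 1 : ℕ) : ℝ) / ((N + 1 : ℕ) : ℝ) * Ψ (Real.log ((N + 1 : ℕ) : ℝ)) else 0) =
        aw q β (N + 1) * Wt Ψ (N + 1) := by
      unfold aw Wt
      split_ifs
      · ring
      · ring
    rw [h2]
    linear_combination ih2

theorem log_succ_bound (n : ℕ) (hn : 1 ≤ n) :
    0 ≤ Real.log ((n + 1 : ℕ) : ℝ) - Real.log n ∧
    1 / ((n : ℝ) + 1) ≤ Real.log ((n + 1 : ℕ) : ℝ) - Real.log n ∧
    Real.log ((n + 1 : ℕ) : ℝ) - Real.log n ≤ 1 / n := by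
  have hn0 : (0 : ℝ) < n := by exact_mod_cast hn
  have h1 : Real.log ((n + 1 : ℕ) : ℝ) - Real.log n = Real.log (((n : ℝ) + 1) / n) := by
    rw [Real.log_div (by positivity) (by positivity)]; push_cast; ring
  have h2 : Real.log (((n : ℝ) + 1) / n) ≤ ((n : ℝ) + 1) / n - 1 :=
    Real.log_le_sub_one_of_pos (by positivity)
  have h3 : 1 - (((n : ℝ) + 1) / n)⁻¹ ≤ Real.log (((n : ℝ) + 1) / n) :=
    Real.one_sub_inv_le_log_of_pos (by positivity)
  have h4 : ((n : ℝ) + 1) / n - 1 = 1 / n := by field_simp; ring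
  have h5 : 1 - (((n : ℝ) + 1) / n)⁻¹ = 1 / ((n : ℝ) + 1) := by field_simp; ring
  rw [h1]
  rw [h4] at h2
  rw [h5] at h3
  exact ⟨le_trans (by positivity) h3, h3, h2⟩

theorem Wt_bd (Ψ : ℝ → ℝ) (M1 L1 : ℝ) (n : ℕ) (hn : 1 ≤ n) (hL : 0 ≤ L1)
    (h1 : |Ψ (Real.log n)| ≤ M1)
    (h2 : |Ψ (Real.log ((n + 1 : ℕ) : ℝ)) - Ψ (Real.log n)| ≤
      L1 * |Real.log ((n + 1 : ℕ) : ℝ) - Real.log n|) :
    |Wt Ψ (n + 1) - Wt Ψ n| ≤ (M1 + L1) / (n : ℝ) ^ 2 := by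
  have hn0 : (0 : ℝ) < n := by exact_mod_cast hn
  have hM : 0 ≤ M1 := le_trans (abs_nonneg _) h1
  obtain ⟨b1, -, b2⟩ := log_succ_bound n hn
  rw [abs_of_nonneg b1] at h2
  have e1 : Wt Ψ (n + 1) - Wt Ψ n =
      (Ψ (Real.log ((n + 1 : ℕ) : ℝ)) - Ψ (Real.log n)) * (1 / ((n : ℝ) + 1)) -
      Ψ (Real.log n) * (1 / ((n : ℝ) * (n + 1))) := by
    unfold Wt
    push_cast
    field_simp
    ring
  rw [e1]
  refine (abs_sub _ _).trans ?_
  rw [abs_mul, abs_mul, abs_of_pos (by positivity : (0 : ℝ) < 1 / ((n : ℝ) + 1)),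
    abs_of_pos (by positivity : (0 : ℝ) < 1 / ((n : ℝ) * (n + 1)))]
  have e2 : |Ψ (Real.log ((n + 1 : ℕ) : ℝ)) - Ψ (Real.log n)| * (1 / ((n : ℝ) + 1)) ≤
      (L1 * (1 / n)) * (1 / n) := by
    apply mul_le_mul (h2.trans (mul_le_mul_of_nonneg_left b2 hL)) _ (by positivity) (by positivity)
    apply one_div_le_one_div_of_le hn0; linarith
  have e3 : |Ψ (Real.log n)| * (1 / ((n : ℝ) * (n + 1))) ≤ M1 * (1 / ((n : ℝ) * n)) := by
    apply mul_le_mul h1 _ (by positivity) hM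
    apply one_div_le_one_div_of_le (by positivity); nlinarith
  have e4 : (L1 * (1 / (n : ℝ))) * (1 / n) + M1 * (1 / ((n : ℝ) * n)) = (M1 + L1) / (n : ℝ) ^ 2 := by
    field_simp; ring
  linarith

theorem int_bd (Ψ : ℝ → ℝ) (M1 L1 : ℝ) (n : ℕ) (hn : 1 ≤ n) (hL : 0 ≤ L1)
    (hint : IntervalIntegrable Ψ volume (Real.log n) (Real.log (n + 1 : ℕ)))
    (h1 : |Ψ (Real.log ((n + 1 : ℕ) : ℝ))| ≤ M1)
    (h2 : ∀ s, Real.log n ≤ s → s ≤ Real.log ((n + 1 : ℕ) : ℝ) →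
      |Ψ s - Ψ (Real.log ((n + 1 : ℕ) : ℝ))| ≤ L1 * |s - Real.log ((n + 1 : ℕ) : ℝ)|) :
    |Wt Ψ (n + 1) - ∫ s in (Real.log n)..(Real.log (n + 1 : ℕ)), Ψ s| ≤
      (M1 + L1) / (n : ℝ) ^ 2 := by
  have hn0 : (0 : ℝ) < n := by exact_mod_cast hn
  have hM : 0 ≤ M1 := le_trans (abs_nonneg _) h1
  obtain ⟨b1, b3, b2⟩ := log_succ_bound n hn
  set a := Real.log (n : ℝ) with ha
  set b := Real.log ((n + 1 : ℕ) : ℝ) with hb
  have e1 : Wt Ψ (n + 1) - ∫ s in a..b, Ψ s =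
      -(Ψ b * ((b - a) - 1 / ((n : ℝ) + 1))) - ∫ s in a..b, (Ψ s - Ψ b) := by
    rw [intervalIntegral.integral_sub hint intervalIntegrable_const,
      intervalIntegral.integral_const]
    unfold Wt
    rw [← hb, smul_eq_mul]
    push_cast
    ring
  have e2 : |∫ s in a..b, (Ψ s - Ψ b)| ≤ (L1 * (b - a)) * |b - a| := by
    rw [← Real.norm_eq_abs (∫ s in a..b, (Ψ s - Ψ b))]
    apply intervalIntegral.norm_integral_le_of_norm_le_const
    intro s hs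
    rw [Set.uIoc_of_le (by linarith)] at hs
    refine (h2 s hs.1.le hs.2).trans ?_
    rw [abs_of_nonpos (by linarith [hs.2])]
    apply mul_le_mul_of_nonneg_left _ hL
    linarith [hs.1]
  rw [abs_of_nonneg b1] at e2
  rw [e1]
  refine (abs_sub _ _).trans ?_
  rw [abs_neg, abs_mul, abs_of_nonneg (by linarith : 0 ≤ (b - a) - 1 / ((n : ℝ) + 1))]
  have e3 : |Ψ b| * ((b - a) - 1 / ((n : ℝ) + 1)) ≤ M1 * (1 / n - 1 / ((n : ℝ) + 1)) :=
    mul_le_mul h1 (by linarith) (by linarith) hM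
  have e4 : 1 / (n : ℝ) - 1 / ((n : ℝ) + 1) ≤ 1 / (n : ℝ) ^ 2 := by
    rw [div_sub_div _ _ (by positivity) (by positivity)]
    rw [div_le_div_iff₀ (by positivity) (by positivity)]
    nlinarith
  have e5 : M1 * (1 / (n : ℝ) - 1 / ((n : ℝ) + 1)) ≤ M1 * (1 / (n : ℝ) ^ 2) :=
    mul_le_mul_of_nonneg_left e4 hM
  have e6 : (L1 * (b - a)) * (b - a) ≤ (L1 * (1 / n)) * (1 / n) := by
    apply mul_le_mul (mul_le_mul_of_nonneg_left b2 hL) b2 b1 (by positivity)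
  have e7 : M1 * (1 / (n : ℝ) ^ 2) + (L1 * (1 / (n : ℝ))) * (1 / n) = (M1 + L1) / (n : ℝ) ^ 2 := by
    field_simp
  linarith

/-- from the theorem of Bombieri and Vinogradov to one modulus -/
theorem single (h : S_BVH) (q A : ℕ) (hq : 1 ≤ q) : ∃ x0 : ℕ, ∀ x : ℕ, x0 ≤ x → ∀ n ≤ x,
    ∀ β : ℕ, Nat.Coprime β q → |Er q β n| ≤ x / Real.log x ^ A := by
  obtain ⟨K, X0, hX⟩ := h A
  have h1 : ∀ᶠ x : ℝ in Filter.atTop, (q : ℝ) ^ 2 * Real.log x ^ K ≤ x := by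
    have h2 := (Real.isLittleO_pow_log_id_atTop (n := K)).const_mul_left ((q : ℝ) ^ 2)
    have h3 := h2.bound (c := 1) one_pos
    filter_upwards [h3, Filter.eventually_ge_atTop 1] with x hx hx1
    rw [one_mul, id, Real.norm_eq_abs, Real.norm_eq_abs, abs_of_nonneg (by linarith : (0 : ℝ) ≤ x)] at hx
    exact (le_abs_self _).trans hx
  have h2 := (tendsto_natCast_atTop_atTop (R := ℝ)).eventually h1
  obtain ⟨x1, hx1⟩ := Filter.eventually_atTop.1 h2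
  refine ⟨max X0 x1, fun x hx n hn β hβ => ?_⟩
  have h3 := hX x (le_trans (le_max_left _ _) hx) q (hx1 x (le_trans (le_max_right _ _) hx))
    (fun m => if m = q then β else 1) (fun _ => n) ?_ (fun _ => hn)
  · refine le_trans ?_ h3
    have h4 := Finset.single_le_sum (s := Icc 1 q) (f := fun m =>
      |∑ p ∈ (Icc 1 n).filter (fun p => p.Prime ∧ p ≡ (if m = q then β else 1) [MOD m]),
        Real.log p - (n : ℝ) / Nat.totient m|) (fun m _ => abs_nonneg _)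
      (Finset.mem_Icc.2 ⟨hq, le_rfl⟩)
    refine le_trans (le_of_eq ?_) h4
    unfold Er
    simp
  · intro m _
    by_cases hm : m = q
    · simp only [hm, if_true]; exact hβ
    · simp only [hm, if_false]; exact Nat.coprime_one_left m

/-- PS with the hypothesis that the Lipschitz constant is nonnegative -/
theorem ps0 (h : S_BVH) (q A : ℕ) (hq : 1 ≤ q) : ∃ C : ℝ, 0 < C ∧ ∃ w0 : ℕ, 3 ≤ w0 ∧
  ∀ w N1 N2 β : ℕ, w0 ≤ w → w ≤ N1 → N1 ≤ N2 →
  N2 ≤ 4 * N1 → Nat.Coprime β q → ∀ (Ψ : ℝ → ℝ) (M1 L1 : ℝ), 0 ≤ L1 →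
  (∀ s, Real.log N1 ≤ s → s ≤ Real.log N2 → |Ψ s| ≤ M1) →
  (∀ s s', Real.log N1 ≤ s → s ≤ Real.log N2 → Real.log N1 ≤ s' → s' ≤ Real.log N2 → |Ψ s - Ψ s'| ≤ L1 * |s - s'|) →
  |∑ p ∈ (Ioc N1 N2).filter (fun p => p.Prime ∧ p ≡ β [MOD q]), Real.log p / p * Ψ (Real.log p) -
    (1 / (Nat.totient q : ℝ)) * ∫ s in (Real.log N1)..(Real.log N2), Ψ s| ≤ C * (M1 + L1) / Real.log w ^ A := by
  obtain ⟨x0, hx0⟩ := single h q A hq
  have h1 : ∀ᶠ x : ℝ in Filter.atTop, Real.log x ^ A ≤ x := by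
    have h3 := (Real.isLittleO_pow_log_id_atTop (n := A)).bound (c := 1) one_pos
    filter_upwards [h3, Filter.eventually_ge_atTop 1] with x hx hx1
    rw [one_mul, id, Real.norm_eq_abs, Real.norm_eq_abs, abs_of_nonneg (by linarith : (0 : ℝ) ≤ x)] at hx
    exact (le_abs_self _).trans hx
  have h2 := (tendsto_natCast_atTop_atTop (R := ℝ)).eventually h1
  obtain ⟨x1, hx1⟩ := Filter.eventually_atTop.1 h2
  refine ⟨23, by norm_num, max 3 (max x0 x1), le_max_left _ _, ?_⟩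
  intro w N1 N2 β hw hwN hN hN4 hβ Ψ M1 L1 hL hM hLip
  have hw3 : 3 ≤ w := le_trans (le_max_left _ _) hw
  have hwx0 : x0 ≤ w := le_trans ((le_max_left _ _).trans (le_max_right _ _)) hw
  have hwx1 : x1 ≤ w := le_trans ((le_max_right _ _).trans (le_max_right _ _)) hw
  have hN1 : 1 ≤ N1 := by omega
  have hN10 : (0 : ℝ) < N1 := by exact_mod_cast (by omega : 0 < N1)
  have hw0 : (0 : ℝ) < w := by exact_mod_cast (by omega : 0 < w)
  have hlogmono : ∀ a b : ℕ, 1 ≤ a → a ≤ b → Real.log a ≤ Real.log b := fun a b ha hab =>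
    Real.log_le_log (by exact_mod_cast (by omega : 0 < a)) (by exact_mod_cast hab)
  have hM0 : 0 ≤ M1 := le_trans (abs_nonneg _) (hM (Real.log N1) le_rfl (hlogmono _ _ hN1 hN))
  have hlw : 1 < Real.log w := by
    have h3 : Real.exp 1 < w := by
      have h4 := Real.exp_one_lt_d9
      have h5 : (3 : ℝ) ≤ w := by exact_mod_cast hw3
      linarith
    rw [Real.lt_log_iff_exp_lt hw0]
    exact h3
  have hlwA : 0 < Real.log w ^ A := pow_pos (by linarith) A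
  have hcont : ContinuousOn Ψ (Set.Icc (Real.log N1) (Real.log N2)) := by
    have : LipschitzOnWith ⟨L1, hL⟩ Ψ (Set.Icc (Real.log N1) (Real.log N2)) := by
      apply LipschitzOnWith.of_dist_le_mul
      intro s hs s' hs'
      rw [Real.dist_eq, Real.dist_eq]
      exact hLip s s' hs.1 hs.2 hs'.1 hs'.2
    exact this.continuousOn
  have hint : ∀ n, N1 ≤ n → n < N2 →
      IntervalIntegrable Ψ volume (Real.log n) (Real.log (n + 1 : ℕ)) := by
    intro n hn1 hn2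
    apply ContinuousOn.intervalIntegrable
    apply hcont.mono
    rw [Set.uIcc_of_le (hlogmono _ _ (by omega) (by omega))]
    exact Set.Icc_subset_Icc (hlogmono _ _ hN1 hn1) (hlogmono _ _ (by omega) (by omega))
  have hid := (ident q β N1 Ψ N2 hN hint).2
  rw [hid]
  -- bounds
  set η : ℝ := N2 / Real.log N2 ^ A with hη
  have hηb : η ≤ 4 * N1 / Real.log w ^ A := by
    rw [hη]
    apply div_le_div₀ (by positivity) (by exact_mod_cast hN4) hlwA
    exact pow_le_pow_left₀ (by linarith) (hlogmono _ _ (by omega) (by omega)) A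
  have hη0 : 0 ≤ η := by
    have : 0 ≤ Real.log N2 := Real.log_natCast_nonneg N2
    positivity
  have hE : ∀ n ≤ N2, |Er q β n| ≤ η := fun n hn => hx0 N2 (by omega) n hn β hβ
  have hWb : ∀ n, N1 ≤ n → n ≤ N2 → |Wt Ψ n| ≤ M1 / N1 := by
    intro n hn1 hn2
    unfold Wt
    rw [abs_div, Nat.abs_cast]
    apply div_le_div₀ hM0 (hM _ (hlogmono _ _ hN1 hn1) (hlogmono _ _ (by omega) hn2)) hN10
    exact_mod_cast hn1
  have hsq : ∀ n, N1 ≤ n → (M1 + L1) / (n : ℝ) ^ 2 ≤ (M1 + L1) / (N1 : ℝ) ^ 2 := by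
    intro n hn
    apply div_le_div_of_nonneg_left (by linarith) (by positivity)
    have : (N1 : ℝ) ≤ n := by exact_mod_cast hn
    gcongr
  have hcard : ((Ico N1 N2).card : ℝ) ≤ 3 * N1 := by
    rw [Nat.card_Ico, Nat.cast_sub hN]
    have : (N2 : ℝ) ≤ 4 * N1 := by exact_mod_cast hN4
    linarith
  have b1 : |Er q β N2 * Wt Ψ N2| ≤ η * (M1 / N1) := by
    rw [abs_mul]; exact mul_le_mul (hE _ le_rfl) (hWb _ hN le_rfl) (abs_nonneg _) hη0
  have b2 : |Er q β N1 * Wt Ψ N1| ≤ η * (M1 / N1) := by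
    rw [abs_mul]; exact mul_le_mul (hE _ hN) (hWb _ le_rfl hN) (abs_nonneg _) hη0
  have hsum : ∀ (X : ℝ), 0 ≤ X → ∑ n ∈ Ico N1 N2, X ≤ 3 * N1 * X := by
    intro X hX
    rw [Finset.sum_const, nsmul_eq_mul]
    exact mul_le_mul_of_nonneg_right hcard hX
  have b3 : |∑ n ∈ Ico N1 N2, Er q β n * (Wt Ψ (n + 1) - Wt Ψ n)| ≤
      3 * N1 * (η * ((M1 + L1) / (N1 : ℝ) ^ 2)) := by
    refine (Finset.abs_sum_le_sum_abs _ _).trans (le_trans (Finset.sum_le_sum ?_) (hsum _ ?_))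
    · intro n hn
      rw [Finset.mem_Ico] at hn
      rw [abs_mul]
      apply mul_le_mul (hE n hn.2.le) _ (abs_nonneg _) hη0
      refine (Wt_bd Ψ M1 L1 n (by omega) hL ?_ ?_).trans (hsq n hn.1)
      · exact hM _ (hlogmono _ _ hN1 hn.1) (hlogmono _ _ (by omega) hn.2.le)
      · exact hLip _ _ (hlogmono _ _ hN1 (by omega)) (hlogmono _ _ (by omega) (by omega))
          (hlogmono _ _ hN1 hn.1) (hlogmono _ _ (by omega) hn.2.le)
    · positivity
  have b4 : |∑ n ∈ Ico N1 N2, (Wt Ψ (n + 1) - ∫ s in (Real.log n)..(Real.log (n + 1 : ℕ)), Ψ s)| ≤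
      3 * N1 * ((M1 + L1) / (N1 : ℝ) ^ 2) := by
    refine (Finset.abs_sum_le_sum_abs _ _).trans (le_trans (Finset.sum_le_sum ?_) (hsum _ ?_))
    · intro n hn
      rw [Finset.mem_Ico] at hn
      refine (int_bd Ψ M1 L1 n (by omega) hL (hint n hn.1 hn.2) ?_ ?_).trans (hsq n hn.1)
      · exact hM _ (hlogmono _ _ hN1 (by omega)) (hlogmono _ _ (by omega) (by omega))
      · intro s hs1 hs2
        exact hLip _ _ (le_trans (hlogmono _ _ hN1 hn.1) hs1)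
          (le_trans hs2 (hlogmono _ _ (by omega) (by omega)))
          (hlogmono _ _ hN1 (by omega)) (hlogmono _ _ (by omega) (by omega))
    · positivity
  have b5 : |(1 / (Nat.totient q : ℝ)) *
      ∑ n ∈ Ico N1 N2, (Wt Ψ (n + 1) - ∫ s in (Real.log n)..(Real.log (n + 1 : ℕ)), Ψ s)| ≤
      3 * N1 * ((M1 + L1) / (N1 : ℝ) ^ 2) := by
    rw [abs_mul]
    have h3 : |1 / (Nat.totient q : ℝ)| ≤ 1 := by
      rw [abs_of_nonneg (by positivity)]
      have h4 : (1 : ℝ) ≤ Nat.totient q := by exact_mod_cast Nat.totient_pos.2 (by omega)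
      rw [div_le_one (by linarith)]
      exact h4
    calc |1 / (Nat.totient q : ℝ)| * _ ≤ 1 * _ := mul_le_mul_of_nonneg_right h3 (abs_nonneg _)
      _ ≤ _ := by rw [one_mul]; exact b4
  have hfin : η * (M1 / N1) + η * (M1 / N1) + 3 * N1 * (η * ((M1 + L1) / (N1 : ℝ) ^ 2)) +
      3 * N1 * ((M1 + L1) / (N1 : ℝ) ^ 2) ≤ 23 * (M1 + L1) / Real.log w ^ A := by
    have e1 : η * (M1 / N1) ≤ η * ((M1 + L1) / N1) := by
      apply mul_le_mul_of_nonneg_left _ hη0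
      apply div_le_div_of_nonneg_right _ hN10.le
      linarith
    have e2 : 3 * N1 * (η * ((M1 + L1) / (N1 : ℝ) ^ 2)) = 3 * (η * ((M1 + L1) / N1)) := by
      field_simp
    have e3 : 3 * N1 * ((M1 + L1) / (N1 : ℝ) ^ 2) = 3 * ((M1 + L1) / N1) := by
      field_simp
    have e4 : η * ((M1 + L1) / N1) ≤ 4 * (M1 + L1) / Real.log w ^ A := by
      calc η * ((M1 + L1) / N1) ≤ (4 * N1 / Real.log w ^ A) * ((M1 + L1) / N1) :=
            mul_le_mul_of_nonneg_right hηb (by positivity)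
        _ = 4 * (M1 + L1) / Real.log w ^ A := by field_simp
    have e5 : (M1 + L1) / N1 ≤ (M1 + L1) / Real.log w ^ A := by
      apply div_le_div_of_nonneg_left (by linarith) hlwA
      exact (hx1 w hwx1).trans (by exact_mod_cast hwN)
    have e6 : 23 * (M1 + L1) / Real.log w ^ A =
        5 * (4 * (M1 + L1) / Real.log w ^ A) + 3 * ((M1 + L1) / Real.log w ^ A) := by ring
    rw [e2, e3, e6]
    linarith
  refine le_trans ?_ hfin
  refine (abs_add_le _ _).trans (add_le_add ((abs_sub _ _).trans (add_le_add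
    ((abs_sub _ _).trans (add_le_add b1 b2)) b3)) b5)

theorem t_PS (h : S_BVH) : S_PS := fun q A hq => ps0 h q A hq

/-- PS with `N1 < N2` -/
theorem ps1 (h : S_BVH) (q A : ℕ) (hq : 1 ≤ q) : ∃ C : ℝ, 0 < C ∧ ∃ w0 : ℕ, 3 ≤ w0 ∧
  ∀ w N1 N2 β : ℕ, w0 ≤ w → w ≤ N1 → N1 < N2 →
  N2 ≤ 4 * N1 → Nat.Coprime β q → ∀ (Ψ : ℝ → ℝ) (M1 L1 : ℝ),
  (∀ s, Real.log N1 ≤ s → s ≤ Real.log N2 → |Ψ s| ≤ M1) →
  (∀ s s', Real.log N1 ≤ s → s ≤ Real.log N2 → Real.log N1 ≤ s' → s' ≤ Real.log N2 → |Ψ s - Ψ s'| ≤ L1 * |s - s'|) →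
  |∑ p ∈ (Ioc N1 N2).filter (fun p => p.Prime ∧ p ≡ β [MOD q]), Real.log p / p * Ψ (Real.log p) -
    (1 / (Nat.totient q : ℝ)) * ∫ s in (Real.log N1)..(Real.log N2), Ψ s| ≤ C * (M1 + L1) / Real.log w ^ A := by
  obtain ⟨C, hC, w0, hw0, hX⟩ := ps0 h q A hq
  refine ⟨C, hC, w0, hw0, fun w N1 N2 β hw hwN hN hN4 hβ Ψ M1 L1 hM hLip => ?_⟩
  refine hX w N1 N2 β hw hwN hN.le hN4 hβ Ψ M1 L1 ?_ hM hLip
  have h1 : (0 : ℝ) < N1 := by exact_mod_cast (by omega : 0 < N1)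
  have h2 : Real.log N1 < Real.log N2 := Real.log_lt_log h1 (by exact_mod_cast hN)
  have h3 := hLip (Real.log N1) (Real.log N2) le_rfl h2.le h2.le le_rfl
  have h4 : 0 < |Real.log N1 - Real.log N2| := abs_pos.2 (by linarith)
  by_contra h5
  push Not at h5
  have h6 := le_trans (abs_nonneg _) h3
  nlinarith

end

end Pool.Agent.N691.QL
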